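import Pool.Agent.Lib.helper29.Sigma1

set_option autoImplicit false

namespace Pool.Agent.Results.MP_9f54b8_an.AreaFails

open Pool.Agent.Lib.H29.Sig

theorem result : ∃ (α : ℝ) (f g : ℂ → ℂ), 0 < α ∧ α < 1 ∧ InSigma f ∧ InSigma g ∧
    (∀ z : ℂ, 1 < ‖z‖ → f z ≠ 0 ∧ g z ≠ 0) ∧
    (∃ R A, Expands (geoMean α f g) R A) ∧
    ∀ R A, Expands (geoMean α f g) R A →
      ∀ N : ℕ, 1 ≤ N → 17 / 16 ≤ ∑ n ∈ Finset.Icc 1 N, (n : ℝ) * ‖A n‖ ^ 2 := by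
  obtain ⟨R, A, h, h1⟩ := main
  refine ⟨1 / 2, ff 1 ww, ff (-1) ww, by norm_num, by norm_num, ff_sigma (Or.inl rfl),
    ff_sigma (Or.inr rfl), fun z hz => ⟨ff_ne (by simp) hz, ff_ne (by simp) hz⟩, ⟨R, A, h⟩,
    fun R' A' h' N hN => ?_⟩
  rw [expands_unique h' h]
  refine le_trans ?_ (Finset.single_le_sum (f := fun n : ℕ => (n : ℝ) * ‖A n‖ ^ 2)
    (fun n _ => by positivity) (Finset.mem_Icc.2 ⟨le_rfl, hN⟩))
  rw [h1, Complex.sq_norm, Complex.normSq_apply]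
  norm_num

end Pool.Agent.Results.MP_9f54b8_an.AreaFails
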